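import Pool.Agent.Y466.TQ.Stm

/-!
# A block Toeplitz matrix is invertible (job TQ-PUR of helper466)
-/

set_option autoImplicit false

namespace Pool.Agent.Y255.TQ.PUR

open Matrix Finset
open Pool.Agent.Y466.TQ

/-- the inverse of `C` -/
def Ci : Matrix (Fin 6) (Fin 6) ℤ :=
  !![2, 0, 0, 1, 0, -1; -2, 2, -2, 1, 1, 1; 0, 0, 1, -1, 0, 0; 0, 0, -1, 2, 0, 0;
    -2, 1, -1, 0, 1, 1; -1, 0, 0, -1, 0, 1]

/-- the matrix of the recursion -/
def h : Matrix (Fin 6) (Fin 6) ℤ :=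
  !![1, 0, 1, 1, 2, 1; -1, -1, -3, -1, -2, -1; 0, 1, 1, 0, 0, 0; 0, -1, 0, 1, 0, 1;
    -1, -1, -2, -1, -1, -1; 0, 0, -1, -1, -1, 0]

theorem C_Ci : C * Ci = 1 := by decide +kernel

theorem C_h : C * h = Cᵀ := by decide +kernel

theorem geom12 : ∑ k ∈ range 12, h ^ k = 0 := by decide +kernel

theorem geom (q : ℕ) : ∑ k ∈ range (12 * q), h ^ k = 0 := by
  induction q with
  | zero => simp
  | succ q ih =>
    rw [Nat.mul_succ, Finset.sum_range_add, ih, zero_add]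
    have e : ∑ x ∈ range 12, h ^ (12 * q + x) = h ^ (12 * q) * ∑ x ∈ range 12, h ^ x := by
      rw [Finset.mul_sum]
      exact Finset.sum_congr rfl fun x _ => pow_add h (12 * q) x
    rw [e, geom12, mul_zero]

/-- the solution for the sum zero -/
def g (r : ℕ → Fin 6 → ℤ) : ℕ → Fin 6 → ℤ
  | 0 => 0
  | i + 1 => h *ᵥ g r i - Ci *ᵥ r i

/-- the sums of the first blocks of the solution -/
def S (r : ℕ → Fin 6 → ℤ) (t : Fin 6 → ℤ) : ℕ → Fin 6 → ℤ
  | 0 => 0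
  | i + 1 => h *ᵥ S r t i + t - Ci *ᵥ r i

theorem S_eq (r : ℕ → Fin 6 → ℤ) (t : Fin 6 → ℤ) (i : ℕ) :
    S r t i = (∑ k ∈ range i, h ^ k) *ᵥ t + g r i := by
  induction i with
  | zero => simp [S, g]
  | succ i ih =>
    have e : ∑ k ∈ range (i + 1), h ^ k = h * ∑ k ∈ range i, h ^ k + 1 := by
      rw [Finset.sum_range_succ', Finset.mul_sum, pow_zero]
      congr 1
      exact Finset.sum_congr rfl fun k _ => pow_succ' h k
    rw [e, add_mulVec, one_mulVec, ← mulVec_mulVec]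
    show h *ᵥ S r t i + t - Ci *ᵥ r i = _ + (h *ᵥ g r i - Ci *ᵥ r i)
    rw [ih, mulVec_add]
    abel

theorem S_last (r : ℕ → Fin 6 → ℤ) (m : ℕ) (hm : 12 ∣ m) : S r (g r m) m = g r m := by
  obtain ⟨q, rfl⟩ := hm
  rw [S_eq, geom, zero_mulVec, zero_add]

theorem step (r : ℕ → Fin 6 → ℤ) (t : Fin 6 → ℤ) (i : ℕ) :
    C *ᵥ (t - S r t (i + 1)) + Cᵀ *ᵥ S r t i = r i := by
  have e : t - S r t (i + 1) = Ci *ᵥ r i - h *ᵥ S r t i := by
    show t - (h *ᵥ S r t i + t - Ci *ᵥ r i) = _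
    abel
  rw [e, mulVec_sub, mulVec_mulVec, mulVec_mulVec, C_Ci, C_h, one_mulVec, sub_add_cancel]

theorem sum_low (σ : ℕ → Fin 6 → ℤ) (h0 : σ 0 = 0) (i : ℕ) (a : Fin 6) : ∀ n ≤ i,
    ∑ j ∈ range n, (if i < j then (C *ᵥ (σ (j + 1) - σ j)) a else
      if j < i then (Cᵀ *ᵥ (σ (j + 1) - σ j)) a else 0) = (Cᵀ *ᵥ σ n) a := by
  intro n
  induction n with
  | zero => intro _; rw [h0, mulVec_zero]; rfl
  | succ n ih =>
    intro hn
    rw [Finset.sum_range_succ, ih (by omega), if_neg (by omega), if_pos (by omega), mulVec_sub]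
    simp

theorem sum_high (σ : ℕ → Fin 6 → ℤ) (h0 : σ 0 = 0) (i : ℕ) (a : Fin 6) : ∀ n, i + 1 ≤ n →
    ∑ j ∈ range n, (if i < j then (C *ᵥ (σ (j + 1) - σ j)) a else
      if j < i then (Cᵀ *ᵥ (σ (j + 1) - σ j)) a else 0) =
      (C *ᵥ (σ n - σ (i + 1)) + Cᵀ *ᵥ σ i) a := by
  intro n hn
  induction n, hn using Nat.le_induction with
  | base =>
    rw [Finset.sum_range_succ, sum_low σ h0 i a i le_rfl, if_neg (lt_irrefl i),
      if_neg (lt_irrefl i), sub_self, mulVec_zero, zero_add, add_zero]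
  | succ n hn ih =>
    rw [Finset.sum_range_succ, ih, if_pos (by omega)]
    have e : σ (n + 1) - σ (i + 1) = (σ n - σ (i + 1)) + (σ (n + 1) - σ n) := by abel
    rw [e, mulVec_add C (σ n - σ (i + 1)) (σ (n + 1) - σ n)]
    simp only [Pi.add_apply]
    ring

theorem solve (m : ℕ) (hm : 12 ∣ m) (r : Fin m × Fin 6 → ℤ) :
    ∃ z : Fin m × Fin 6 → ℤ, Pu m *ᵥ z = r := by
  obtain ⟨rr, hrr⟩ : ∃ rr : ℕ → Fin 6 → ℤ,
      rr = fun i a => if hi : i < m then r (⟨i, hi⟩, a) else 0 := ⟨_, rfl⟩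
  obtain ⟨σ, hσ⟩ : ∃ σ : ℕ → Fin 6 → ℤ, σ = S rr (g rr m) := ⟨_, rfl⟩
  have hσ0 : σ 0 = 0 := by rw [hσ]; rfl
  have hσm : σ m = g rr m := by rw [hσ]; exact S_last rr m hm
  refine ⟨fun q => (σ (q.1 + 1) - σ q.1) q.2, ?_⟩
  funext p
  obtain ⟨i, a⟩ := p
  have h1 : (Pu m *ᵥ fun q : Fin m × Fin 6 => (σ (q.1 + 1) - σ q.1) q.2) (i, a) =
      ∑ j : Fin m, (fun j : ℕ => if (i : ℕ) < j then (C *ᵥ (σ (j + 1) - σ j)) a else
      if j < i then (Cᵀ *ᵥ (σ (j + 1) - σ j)) a else 0) (j : ℕ) := by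
    show ∑ q : Fin m × Fin 6, Pu m (i, a) q * (σ (q.1 + 1) - σ q.1) q.2 = _
    rw [Fintype.sum_prod_type]
    refine Finset.sum_congr rfl fun j _ => ?_
    show ∑ b : Fin 6, (if i < j then C a b else if j < i then C b a else 0) *
      (σ ((j : ℕ) + 1) - σ j) b = _
    rcases lt_trichotomy i j with hij | hij | hij
    · have hij' : (i : ℕ) < j := hij
      simp only [if_pos hij, if_pos hij']
      rfl
    · subst hij
      simp only [lt_irrefl, if_false, zero_mul, Finset.sum_const_zero]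
    · have hij' : (j : ℕ) < i := hij
      have h2 : ¬ i < j := not_lt.2 hij.le
      have h2' : ¬ (i : ℕ) < j := not_lt.2 hij'.le
      simp only [if_neg h2, if_neg h2', if_pos hij, if_pos hij']
      rfl
  rw [h1, Fin.sum_univ_eq_sum_range (fun j : ℕ => if (i : ℕ) < j then
      (C *ᵥ (σ (j + 1) - σ j)) a else
      if j < i then (Cᵀ *ᵥ (σ (j + 1) - σ j)) a else 0) m, sum_high σ hσ0 i a m i.2, hσm]
  have h3 := step rr (g rr m) i
  rw [← hσ] at h3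
  rw [h3, hrr]
  simp

theorem pur : PUR := by
  intro m hm
  choose z hz using fun q : Fin m × Fin 6 => solve m hm (fun p => if p = q then 1 else 0)
  refine ⟨Matrix.of fun p q => z q p, ?_⟩
  ext p q
  have h1 := congrFun (hz q) p
  rw [Matrix.mul_apply, Matrix.one_apply]
  exact h1

end Pool.Agent.Y255.TQ.PUR
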