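import Pool.Agent.Y255.TQ.Cls
import Pool.Agent.Y122.TQ.Defs

/-!
# Project TQ, task ORTH: mean values of `(e d | k)` over the squarefree members of the families
-/

set_option autoImplicit false

namespace Pool.Agent.Y255.TQ

open Finset
open Pool.Agent.H306R2.RZ (js nu)
open Pool.Agent.H306R2.RG (FD F8 F4 F1 Fam jo)
open Pool.Agent.Y122.TQ (Om dens om S_ORTH)

/-- the main term -/
theorem main_term (k : ℕ) (hk : Odd k) :
    ((if IsSquare k then (k.totient : ℝ) else 0) / k) * ∑' b : ℕ, gc k b / (b : ℝ) ^ 2 =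
      8 / Real.pi ^ 2 * om k := by
  rw [gc_tsum k hk]
  unfold om
  by_cases hs : IsSquare k
  · rw [if_pos hs, if_pos hs]
    have hk0 : k ≠ 0 := by rintro rfl; exact absurd hk (by decide)
    have hkr : (k : ℝ) ≠ 0 := by exact_mod_cast hk0
    have h1 : (k.totient : ℝ) = k * ∏ p ∈ k.primeFactors, (1 - (p : ℝ)⁻¹) := by
      have h2 := Nat.totient_eq_mul_prod_factors k
      have h3 : (((k.totient : ℚ)) : ℝ) = ((k * ∏ p ∈ k.primeFactors, (1 - (p : ℚ)⁻¹) : ℚ) : ℝ) := by
        rw [h2]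
      push_cast at h3
      exact h3
    have h4 : (k.totient : ℝ) / k = ∏ p ∈ k.primeFactors, (1 - (p : ℝ)⁻¹) := by
      rw [h1]
      field_simp
    have h5 : (∏ p ∈ k.primeFactors, (1 - (p : ℝ)⁻¹)) *
        ∏ p ∈ k.primeFactors, (1 - 1 / (p : ℝ) ^ 2)⁻¹ = nu k := by
      rw [← prod_mul_distrib]
      unfold Pool.Agent.H306R2.RZ.nu
      refine prod_congr rfl fun p hp => ?_
      have h8 : (2 : ℝ) ≤ p := by exact_mod_cast (Nat.prime_of_mem_primeFactors hp).two_le
      have h9 : (p : ℝ) - 1 ≠ 0 := by linarith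
      have h10 : (p : ℝ) + 1 ≠ 0 := by linarith
      have h11 : (p : ℝ) ≠ 0 := by linarith
      have e1 : (1 - 1 / (p : ℝ) ^ 2) = ((p : ℝ) - 1) * ((p : ℝ) + 1) / (p : ℝ) ^ 2 := by
        field_simp
        ring
      have e2 : (1 - (p : ℝ)⁻¹) = ((p : ℝ) - 1) / p := by
        field_simp
      rw [e1, e2]
      field_simp
    rw [h4, ← h5]
    ring
  · rw [if_neg hs, if_neg hs]
    ring

/-- a family given by residue classes modulo 8 -/
theorem fam_orth (φ : FD) (R : Finset ℕ) (hR : ∀ a ∈ R, a < 8 ∧ Odd a)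
    (hδ : φ.δ = (R.card : ℝ) / 8) (he : ∀ m : ℕ, Odd m → φ.e.gcd m = 1)
    (hA : ∀ d : ℕ, 2 ≤ d → Squarefree d → (φ.A d ↔ d % 8 ∈ R)) :
    ∃ C : ℝ, 0 < C ∧ ∀ Y k : ℕ, 1 ≤ Y → Odd k →
    |∑ d ∈ Om φ Y, jo φ d k - dens φ * Y * om k| ≤ C * (Y : ℝ) ^ (3 / 4 : ℝ) * k := by
  classical
  refine ⟨5 * R.card + 2, by positivity, ?_⟩
  intro Y k hY hk
  have hk0 : 0 < k := Nat.pos_of_ne_zero (by rintro rfl; exact absurd hk (by decide))
  have hkr : (1 : ℝ) ≤ k := by exact_mod_cast hk0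
  have hYr : (1 : ℝ) ≤ Y := by exact_mod_cast hY
  set Z : ℝ := (Y : ℝ) ^ (3 / 4 : ℝ) with hZ
  have hZ1 : 1 ≤ Z := Real.one_le_rpow hYr (by norm_num)
  have hZs : Real.sqrt Y ≤ Z := by
    rw [Real.sqrt_eq_rpow]
    exact Real.rpow_le_rpow_of_exponent_le hYr (by norm_num)
  have hZ4 : Z ^ 4 = (Y : ℝ) ^ 3 := by
    rw [hZ, ← Real.rpow_natCast, ← Real.rpow_mul (by linarith)]
    norm_num
  -- the sums over the classes
  have h1 : |∑ a ∈ R, ∑ d ∈ (Icc 1 Y).filter Squarefree, fc φ.e k a d - dens φ * Y * om k| ≤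
      R.card * (5 * k * Real.sqrt Y) := by
    have e1 : dens φ * Y * om k = ∑ a ∈ R, (Y : ℝ) / 8 *
        (((if IsSquare k then (k.totient : ℝ) else 0) / k) * ∑' b : ℕ, gc k b / (b : ℝ) ^ 2) := by
      rw [sum_const, nsmul_eq_mul, main_term k hk]
      unfold Pool.Agent.Y122.TQ.dens
      rw [hδ]
      ring
    rw [e1, ← sum_sub_distrib]
    refine (abs_sum_le_sum_abs _ _).trans ?_
    have h2 := sum_le_sum (fun a (ha : a ∈ R) => class_sum φ.e he k hk a (hR a ha).1
      (hR a ha).2 Y hY)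
    rw [sum_const, nsmul_eq_mul] at h2
    exact h2
  have h2 : ∑ a ∈ R, ∑ d ∈ (Icc 1 Y).filter Squarefree, fc φ.e k a d =
      ∑ d ∈ (Icc 1 Y).filter Squarefree, (if d % 8 ∈ R then jr (φ.e * d) k else 0) := by
    rw [sum_comm]
    refine sum_congr rfl fun d _ => ?_
    unfold fc
    rw [Finset.sum_ite_eq]
  have h3 : ∑ d ∈ Om φ Y, jo φ d k = ∑ d ∈ (Icc 1 Y).filter Squarefree,
      (if φ.A d ∧ Y ^ 3 ≤ d ^ 4 then jr (φ.e * d) k else 0) := by
    unfold Om
    rw [← sum_filter, filter_filter]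
    have e1 : (Icc 1 Y).filter (fun d => Squarefree d ∧ (φ.A d ∧ Y ^ 3 ≤ d ^ 4)) =
        (Icc 1 Y).filter (fun d => φ.A d ∧ Squarefree d ∧ Y ^ 3 ≤ d ^ 4) := by
      ext d
      simp only [mem_filter]
      tauto
    rw [e1]
    refine sum_congr ?_ fun d _ => ?_
    · congr
    · unfold Pool.Agent.H306R2.RG.jo
      rw [if_pos hk]
      rfl
  have h4 : |∑ d ∈ Om φ Y, jo φ d k -
      ∑ a ∈ R, ∑ d ∈ (Icc 1 Y).filter Squarefree, fc φ.e k a d| ≤ 1 + Z := by
    rw [h2, h3, ← sum_sub_distrib]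
    refine (abs_sum_le_sum_abs _ _).trans ?_
    have h5 : ∀ d ∈ (Icc 1 Y).filter Squarefree,
        |(if φ.A d ∧ Y ^ 3 ≤ d ^ 4 then jr (φ.e * d) k else 0) -
          (if d % 8 ∈ R then jr (φ.e * d) k else 0)| ≤
        (if d = 1 ∨ d ^ 4 < Y ^ 3 then (1 : ℝ) else 0) := by
      intro d hd
      rw [mem_filter, mem_Icc] at hd
      have h6 := jr_abs (φ.e * d) k
      by_cases hc : d = 1 ∨ d ^ 4 < Y ^ 3
      · rw [if_pos hc]
        split_ifs <;> simp [h6]
      · rw [if_neg hc]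
        push Not at hc
        have h7 := hA d (by omega) hd.2
        by_cases hr : d % 8 ∈ R
        · rw [if_pos ⟨h7.2 hr, hc.2⟩, if_pos hr, sub_self, abs_zero]
        · rw [if_neg (fun h => hr (h7.1 h.1)), if_neg hr, sub_self, abs_zero]
    refine (sum_le_sum h5).trans ?_
    rw [← sum_filter, sum_const, nsmul_eq_mul, mul_one]
    have h8 : (((Icc 1 Y).filter Squarefree).filter (fun d => d = 1 ∨ d ^ 4 < Y ^ 3)) ⊆
        {1} ∪ Icc 1 ⌊Z⌋₊ := by
      intro d hd
      rw [mem_filter, mem_filter, mem_Icc] at hd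
      rw [mem_union, mem_singleton, mem_Icc]
      rcases hd.2 with h | h
      · exact Or.inl h
      · right
        refine ⟨hd.1.1.1, ?_⟩
        rw [Nat.le_floor_iff (by linarith)]
        have h9 : ((d : ℝ)) ^ 4 ≤ Z ^ 4 := by
          rw [hZ4]
          exact_mod_cast h.le
        exact (pow_le_pow_iff_left₀ (by positivity) (by linarith) (by norm_num)).1 h9
    have h9 := (card_le_card h8).trans (card_union_le _ _)
    rw [card_singleton, Nat.card_Icc, Nat.add_sub_cancel] at h9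
    have h10 : ((⌊Z⌋₊ : ℕ) : ℝ) ≤ Z := Nat.floor_le (by linarith)
    have h11 : (((((Icc 1 Y).filter Squarefree).filter (fun d => d = 1 ∨ d ^ 4 < Y ^ 3)).card : ℕ)
        : ℝ) ≤ 1 + (⌊Z⌋₊ : ℕ) := by exact_mod_cast h9
    linarith
  have h5 := abs_sub_le (∑ d ∈ Om φ Y, jo φ d k)
    (∑ a ∈ R, ∑ d ∈ (Icc 1 Y).filter Squarefree, fc φ.e k a d) (dens φ * Y * om k)
  have h6 : (R.card : ℝ) * (5 * k * Real.sqrt Y) ≤ R.card * (5 * k * Z) := by gcongr
  have h7 : Z ≤ Z * k := by nlinarith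
  have h8 : 1 ≤ Z * k := by nlinarith
  nlinarith

theorem gcd_unit {ε : ℤ} (hε : ε = 1 ∨ ε = -1) (m : ℕ) : ε.gcd m = 1 := by
  rcases hε with rfl | rfl
  · simp
  · simp

theorem gcd_two {ε : ℤ} (hε : ε = 1 ∨ ε = -1) (m : ℕ) (hm : Odd m) : (2 * ε).gcd m = 1 := by
  have h : Nat.gcd 2 m = 1 := hm.coprime_two_left
  rcases hε with rfl | rfl
  · exact h
  · exact h

theorem not_square {d : ℕ} (hd : 2 ≤ d) (hs : Squarefree d) : ¬ IsSquare ((1 : ℤ) * (d : ℤ)) := by
  rintro ⟨x, hx⟩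
  rw [one_mul] at hx
  have h1 : d = x.natAbs * x.natAbs := by
    have := congrArg Int.natAbs hx
    rwa [Int.natAbs_natCast, Int.natAbs_mul] at this
  have h2 := hs x.natAbs ⟨1, by rw [mul_one]; exact h1⟩
  have h3 := Nat.isUnit_iff.1 h2
  rw [h3] at h1
  omega

theorem not_square' {d : ℕ} (hd : 2 ≤ d) : ¬ IsSquare ((-1 : ℤ) * (d : ℤ)) := by
  rintro ⟨x, hx⟩
  have := mul_self_nonneg x
  omega

/-- Task ORTH. -/
theorem ORTH : S_ORTH := by
  rintro φ ⟨ε, hε, hφ⟩
  rcases hφ with rfl | rfl | rfl | rfl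
  · refine fam_orth (F8 ε) {1, 3, 5, 7} (by decide) ?_ (gcd_two hε) ?_
    · simp only [F8]
      norm_num
    · intro d _ _
      simp only [F8, mem_insert, mem_singleton, Nat.odd_iff]
      omega
  · rcases hε with rfl | rfl
    · refine fam_orth (F4 1) {3, 7} (by decide) ?_ (fun m _ => gcd_unit (Or.inl rfl) m) ?_
      · simp only [F4]
        norm_num
      · intro d _ _
        simp only [F4, mem_insert, mem_singleton]
        omega
    · refine fam_orth (F4 (-1)) {1, 5} (by decide) ?_ (fun m _ => gcd_unit (Or.inr rfl) m) ?_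
      · simp only [F4]
        norm_num
      · intro d _ _
        simp only [F4, mem_insert, mem_singleton]
        omega
  · rcases hε with rfl | rfl
    · refine fam_orth (F1 1 1) {1} (by decide) ?_ (fun m _ => gcd_unit (Or.inl rfl) m) ?_
      · simp only [F1]
        norm_num
      · intro d hd hs
        simp only [F1, mem_singleton]
        constructor
        · rintro ⟨h, _⟩
          omega
        · intro h
          exact ⟨by omega, not_square hd hs⟩
    · refine fam_orth (F1 (-1) 1) {7} (by decide) ?_ (fun m _ => gcd_unit (Or.inr rfl) m) ?_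
      · simp only [F1]
        norm_num
      · intro d hd hs
        simp only [F1, mem_singleton]
        constructor
        · rintro ⟨h, _⟩
          omega
        · intro h
          exact ⟨by omega, not_square' hd⟩
  · rcases hε with rfl | rfl
    · refine fam_orth (F1 1 5) {5} (by decide) ?_ (fun m _ => gcd_unit (Or.inl rfl) m) ?_
      · simp only [F1]
        norm_num
      · intro d hd hs
        simp only [F1, mem_singleton]
        constructor
        · rintro ⟨h, _⟩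
          omega
        · intro h
          exact ⟨by omega, not_square hd hs⟩
    · refine fam_orth (F1 (-1) 5) {3} (by decide) ?_ (fun m _ => gcd_unit (Or.inr rfl) m) ?_
      · simp only [F1]
        norm_num
      · intro d hd hs
        simp only [F1, mem_singleton]
        constructor
        · rintro ⟨h, _⟩
          omega
        · intro h
          exact ⟨by omega, not_square' hd⟩

end Pool.Agent.Y255.TQ
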