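import Pool.Agent.Y255.TQ.Mob

/-!
# Squarefree integers in one residue class modulo 8
-/

set_option autoImplicit false

namespace Pool.Agent.Y255.TQ

open Finset Filter Topology

/-- the summand of one class -/
noncomputable def fc (e : ℤ) (k a d : ℕ) : ℝ := if d % 8 = a then jr (e * d) k else 0

theorem fc_sq (e : ℤ) (k a : ℕ) (hk : Odd k) (hao : Odd a) (b m : ℕ) :
    ((ArithmeticFunction.moebius b : ℤ) : ℝ) * fc e k a (b ^ 2 * m) = gc k b * fc e k a m := by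
  have hk0 : k ≠ 0 := by rintro rfl; exact absurd hk (by decide)
  have : NeZero k := ⟨hk0⟩
  unfold gc fc
  rcases Nat.even_or_odd b with hb | hb
  · have h1 : ¬ Nat.Coprime b (2 * k) := by
      intro h
      have h2 := Nat.Coprime.coprime_mul_right_right h
      have h3 : 2 ∣ b := even_iff_two_dvd.1 hb
      have h4 := Nat.Coprime.eq_one_of_dvd (Nat.coprime_comm.1 h2) h3
      omega
    have h2 : ¬ (b ^ 2 * m % 8 = a) := by
      intro h
      obtain ⟨c, hc⟩ := hb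
      obtain ⟨c', hc'⟩ := hao
      have h3 : b ^ 2 * m = 4 * (c ^ 2 * m) := by
        rw [hc]
        ring
      rw [h3] at h
      omega
    rw [if_neg h1, if_neg h2, mul_zero, zero_mul]
  · have h8 : b ^ 2 % 8 = 1 := by
      obtain ⟨c, rfl⟩ := hb
      have h3 : (2 * c + 1) ^ 2 = 4 * (c * (c + 1)) + 1 := by ring
      obtain ⟨x, hx⟩ := Nat.even_mul_succ_self c
      rw [h3, hx]
      omega
    have h9 : b ^ 2 * m % 8 = m % 8 := by
      rw [Nat.mul_mod, h8, one_mul, Nat.mod_mod]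
    rw [h9]
    have hj : jr (e * ((b ^ 2 * m : ℕ) : ℤ)) k =
        (if (b : ℤ).gcd k = 1 then 1 else 0) * jr (e * m) k := by
      have e1 : e * ((b ^ 2 * m : ℕ) : ℤ) = (b : ℤ) * ((b : ℤ) * (e * m)) := by
        push_cast
        ring
      rw [e1, jr_mul, jr_mul, ← jr_sq (b : ℤ) k]
      ring
    have hc : Nat.Coprime b (2 * k) ↔ (b : ℤ).gcd k = 1 := by
      rw [Int.gcd_natCast_natCast, Nat.coprime_mul_iff_right]
      constructor
      · intro h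
        exact h.2
      · intro h
        exact ⟨Nat.coprime_comm.1 (hb.coprime_two_left), h⟩
    by_cases hc1 : Nat.Coprime b (2 * k)
    · rw [if_pos hc1, hj, if_pos (hc.1 hc1), one_mul]
    · rw [if_neg hc1, hj, if_neg (fun h => hc1 (hc.2 h)), zero_mul, zero_mul]
      simp

/-- the sum over a class without the squarefree condition -/
theorem class_all (e : ℤ) (he : ∀ m : ℕ, Odd m → e.gcd m = 1) (k : ℕ) (hk : Odd k) (a : ℕ)
    (ha : a < 8) (hao : Odd a) (N : ℕ) :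
    |∑ m ∈ Icc 1 N, fc e k a m - (N : ℝ) / 8 * ((if IsSquare k then (k.totient : ℝ) else 0) / k)| ≤
      3 * k := by
  have hk0 : 0 < k := Nat.pos_of_ne_zero (by rintro rfl; exact absurd hk (by decide))
  have hkr : (1 : ℝ) ≤ k := by exact_mod_cast hk0
  have ha1 : 1 ≤ a := by
    obtain ⟨c, hc⟩ := hao
    omega
  set N' : ℕ := (N + 8 - a) / 8 with hN'
  have h1 : ∑ m ∈ Icc 1 N, fc e k a m = ∑ t ∈ range N', jr (e * ((8 * t + a : ℕ) : ℤ)) k := by
    unfold fc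
    rw [← sum_filter]
    symm
    refine sum_bij (fun t _ => 8 * t + a) ?_ ?_ ?_ ?_
    · intro t ht
      rw [mem_range] at ht
      rw [mem_filter, mem_Icc]
      omega
    · intro t _ t' _ h
      have h' : 8 * t + a = 8 * t' + a := h
      omega
    · intro m hm
      rw [mem_filter, mem_Icc] at hm
      refine ⟨m / 8, ?_, ?_⟩
      · rw [mem_range]
        omega
      · omega
    · intro t _
      rfl
  have hper : ∀ n, jr (e * ((8 * (n + k) + a : ℕ) : ℤ)) k = jr (e * ((8 * n + a : ℕ) : ℤ)) k := by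
    intro n
    have e1 : e * ((8 * (n + k) + a : ℕ) : ℤ) = e * ((8 * n + a : ℕ) : ℤ) + k * (8 * e) := by
      push_cast
      ring
    rw [e1, jr_per]
  have h2 := per_sum (fun t => jr (e * ((8 * t + a : ℕ) : ℤ)) k) k hk0 hper
    (fun t => jr_abs _ _) N'
  have hcop : Nat.Coprime 8 k := by
    have : Nat.Coprime (2 ^ 3) k := Nat.Coprime.pow_left 3 hk.coprime_two_left
    exact this
  have h3 := affine_sum k 8 a hk0 hcop (fun n => jr (e * (n : ℤ)) k) (by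
    intro n
    have e1 : e * ((n + k : ℕ) : ℤ) = e * (n : ℤ) + k * e := by
      push_cast
      ring
    rw [e1, jr_per])
  rw [full_sum e k hk he] at h3
  rw [h3] at h2
  rw [h1]
  set W : ℝ := (if IsSquare k then (k.totient : ℝ) else 0) with hW
  have hW0 : 0 ≤ W := by
    rw [hW]
    split_ifs
    · positivity
    · exact le_refl _
  have hWk : W ≤ k := by
    rw [hW]
    split_ifs
    · exact_mod_cast Nat.totient_le k
    · positivity
  have hw1 : W / k ≤ 1 := by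
    rw [div_le_one (by linarith)]
    exact hWk
  have hw0 : 0 ≤ W / k := by positivity
  have h4 : |(N' : ℝ) - (N : ℝ) / 8| ≤ 1 := by
    have h5 : 8 * N' ≤ N + 7 := by omega
    have h6 : N ≤ 8 * N' + 7 := by omega
    have h5' : 8 * (N' : ℝ) ≤ N + 7 := by exact_mod_cast h5
    have h6' : (N : ℝ) ≤ 8 * N' + 7 := by exact_mod_cast h6
    rw [abs_le]
    constructor <;> linarith
  have h7 : |(N' : ℝ) / k * W - (N : ℝ) / 8 * (W / k)| ≤ 1 := by
    have e1 : (N' : ℝ) / k * W - (N : ℝ) / 8 * (W / k) = ((N' : ℝ) - (N : ℝ) / 8) * (W / k) := by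
      ring
    rw [e1, abs_mul, abs_of_nonneg hw0]
    calc |(N' : ℝ) - (N : ℝ) / 8| * (W / k) ≤ 1 * 1 := by gcongr
      _ = 1 := one_mul 1
  have h8 := abs_sub_le (∑ t ∈ range N', jr (e * ((8 * t + a : ℕ) : ℤ)) k) ((N' : ℝ) / k * W)
    ((N : ℝ) / 8 * (W / k))
  linarith

/-- squarefree numbers in one class -/
theorem class_sum (e : ℤ) (he : ∀ m : ℕ, Odd m → e.gcd m = 1) (k : ℕ) (hk : Odd k) (a : ℕ)
    (ha : a < 8) (hao : Odd a) (Y : ℕ) (hY : 1 ≤ Y) :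
    |∑ d ∈ (Icc 1 Y).filter Squarefree, fc e k a d -
      (Y : ℝ) / 8 * (((if IsSquare k then (k.totient : ℝ) else 0) / k) *
        ∑' b : ℕ, gc k b / (b : ℝ) ^ 2)| ≤ 5 * k * Real.sqrt Y := by
  have hk0 : 0 < k := Nat.pos_of_ne_zero (by rintro rfl; exact absurd hk (by decide))
  have hkr : (1 : ℝ) ≤ k := by exact_mod_cast hk0
  rw [sqf_split]
  set r : ℕ := Nat.sqrt Y with hr
  have hr1 : 1 ≤ r := by
    rw [hr, Nat.le_sqrt']
    simpa using hY
  have hrr : (1 : ℝ) ≤ r := by exact_mod_cast hr1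
  have hrY : r ^ 2 ≤ Y := Nat.sqrt_le' Y
  have hYr : Y < (r + 1) ^ 2 := Nat.lt_succ_sqrt' Y
  have hrs : (r : ℝ) ≤ Real.sqrt Y := by
    apply Real.le_sqrt_of_sq_le
    exact_mod_cast hrY
  set w : ℝ := (if IsSquare k then (k.totient : ℝ) else 0) / k with hw
  have hw0 : 0 ≤ w := by
    rw [hw]
    apply div_nonneg _ (by linarith)
    split_ifs
    · positivity
    · exact le_refl _
  have hw1 : w ≤ 1 := by
    rw [hw, div_le_one (by linarith)]
    split_ifs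
    · exact_mod_cast Nat.totient_le k
    · positivity
  set P : ℝ := ∑' b : ℕ, gc k b / (b : ℝ) ^ 2 with hP
  have h1 : ∀ b ∈ Icc 1 r, ((ArithmeticFunction.moebius b : ℤ) : ℝ) *
      ∑ m ∈ Icc 1 (Y / b ^ 2), fc e k a (b ^ 2 * m) =
      gc k b * ∑ m ∈ Icc 1 (Y / b ^ 2), fc e k a m := by
    intro b _
    rw [mul_sum, mul_sum]
    exact sum_congr rfl fun m _ => fc_sq e k a hk hao b m
  rw [sum_congr rfl h1]
  have h2 : ∀ b ∈ Icc 1 r, |gc k b * ∑ m ∈ Icc 1 (Y / b ^ 2), fc e k a m -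
      (Y : ℝ) / 8 * w * (gc k b / (b : ℝ) ^ 2)| ≤ 4 * (k : ℝ) := by
    intro b hb
    rw [mem_Icc] at hb
    have hb0 : (0 : ℝ) < (b : ℝ) ^ 2 := by
      have : (1 : ℝ) ≤ b := by exact_mod_cast hb.1
      positivity
    have h3 := class_all e he k hk a ha hao (Y / b ^ 2)
    rw [← hw] at h3
    have h4 : |(((Y / b ^ 2 : ℕ) : ℝ)) / 8 * w - (Y : ℝ) / (b : ℝ) ^ 2 / 8 * w| ≤ 1 := by
      have e1 : (((Y / b ^ 2 : ℕ) : ℝ)) / 8 * w - (Y : ℝ) / (b : ℝ) ^ 2 / 8 * w =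
          ((((Y / b ^ 2 : ℕ) : ℝ)) - (Y : ℝ) / (b : ℝ) ^ 2) * (w / 8) := by ring
      have h5 : (((Y / b ^ 2 : ℕ) : ℝ)) ≤ (Y : ℝ) / (b : ℝ) ^ 2 := by
        have := Nat.cast_div_le (α := ℝ) (m := Y) (n := b ^ 2)
        push_cast at this ⊢
        exact this
      have h6 : (Y : ℝ) / (b : ℝ) ^ 2 ≤ (((Y / b ^ 2 : ℕ) : ℝ)) + 1 := by
        rw [div_le_iff₀ hb0]
        have h7 := Nat.lt_mul_div_succ Y (show 0 < b ^ 2 by
          have : 0 < b := by omega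
          positivity)
        have h8 : (Y : ℝ) < ((b ^ 2 * (Y / b ^ 2 + 1) : ℕ) : ℝ) := by exact_mod_cast h7
        push_cast at h8 ⊢
        nlinarith
      rw [e1, abs_mul, abs_of_nonneg (by positivity : 0 ≤ w / 8)]
      have h9 : |(((Y / b ^ 2 : ℕ) : ℝ)) - (Y : ℝ) / (b : ℝ) ^ 2| ≤ 1 := by
        rw [abs_le]
        constructor <;> linarith
      calc |(((Y / b ^ 2 : ℕ) : ℝ)) - (Y : ℝ) / (b : ℝ) ^ 2| * (w / 8) ≤ 1 * 1 := by
            gcongr
            linarith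
        _ = 1 := one_mul 1
    have e2 : gc k b * ∑ m ∈ Icc 1 (Y / b ^ 2), fc e k a m -
      (Y : ℝ) / 8 * w * (gc k b / (b : ℝ) ^ 2) =
      gc k b * (∑ m ∈ Icc 1 (Y / b ^ 2), fc e k a m - (Y : ℝ) / (b : ℝ) ^ 2 / 8 * w) := by
      ring
    rw [e2, abs_mul]
    have h5 := abs_sub_le (∑ m ∈ Icc 1 (Y / b ^ 2), fc e k a m)
      ((((Y / b ^ 2 : ℕ) : ℝ)) / 8 * w) ((Y : ℝ) / (b : ℝ) ^ 2 / 8 * w)
    have h6 := gc_abs k b
    have h7 : |∑ m ∈ Icc 1 (Y / b ^ 2), fc e k a m - (Y : ℝ) / (b : ℝ) ^ 2 / 8 * w| ≤ 4 * (k : ℝ) := by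
      linarith
    calc |gc k b| * |∑ m ∈ Icc 1 (Y / b ^ 2), fc e k a m - (Y : ℝ) / (b : ℝ) ^ 2 / 8 * w| ≤
          1 * (4 * k) := by gcongr
      _ = 4 * k := one_mul _
  have h3 : |∑ b ∈ Icc 1 r, gc k b * ∑ m ∈ Icc 1 (Y / b ^ 2), fc e k a m -
      (Y : ℝ) / 8 * w * ∑ b ∈ Icc 1 r, gc k b / (b : ℝ) ^ 2| ≤ r * (4 * k) := by
    rw [mul_sum, ← sum_sub_distrib]
    refine (abs_sum_le_sum_abs _ _).trans ((sum_le_sum h2).trans ?_)
    rw [sum_const, Nat.card_Icc, nsmul_eq_mul]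
    simp
  have h4 : |(Y : ℝ) / 8 * w * ∑ b ∈ Icc 1 r, gc k b / (b : ℝ) ^ 2 - (Y : ℝ) / 8 * (w * P)| ≤
      r := by
    have e1 : (Y : ℝ) / 8 * w * ∑ b ∈ Icc 1 r, gc k b / (b : ℝ) ^ 2 - (Y : ℝ) / 8 * (w * P) =
        (Y : ℝ) / 8 * w * (∑ b ∈ Icc 1 r, gc k b / (b : ℝ) ^ 2 - P) := by ring
    rw [e1, abs_mul, abs_of_nonneg (by positivity : 0 ≤ (Y : ℝ) / 8 * w)]
    have h5 := gc_tail k r hr1
    rw [← hP] at h5
    have h6 : (Y : ℝ) ≤ 4 * r ^ 2 := by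
      have h7 : Y ≤ (r + 1) ^ 2 := hYr.le
      have h8 : (Y : ℝ) ≤ ((r : ℝ) + 1) ^ 2 := by exact_mod_cast h7
      nlinarith
    calc (Y : ℝ) / 8 * w * |∑ b ∈ Icc 1 r, gc k b / (b : ℝ) ^ 2 - P| ≤
          (4 * (r : ℝ) ^ 2) / 8 * 1 * (1 / r) := by gcongr
      _ = r / 2 := by
          field_simp
          ring
      _ ≤ r := by linarith
  have h5 := abs_sub_le (∑ b ∈ Icc 1 r, gc k b * ∑ m ∈ Icc 1 (Y / b ^ 2), fc e k a m)
    ((Y : ℝ) / 8 * w * ∑ b ∈ Icc 1 r, gc k b / (b : ℝ) ^ 2) ((Y : ℝ) / 8 * (w * P))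
  have h6 : (r : ℝ) * (4 * k) + r ≤ 5 * k * Real.sqrt Y := by
    have h7 : (r : ℝ) ≤ k * r := by nlinarith
    have h8 : (k : ℝ) * r ≤ k * Real.sqrt Y := by gcongr
    nlinarith
  linarith

end Pool.Agent.Y255.TQ
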