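import Mathlib

/-!
# Sums of Jacobi symbols over squarefree integers in residue classes modulo 8
-/

set_option autoImplicit false

namespace Pool.Agent.Y255.TQ

open Finset Filter Topology

/-- the Möbius identity -/
theorem sqf_sum (d Y : ℕ) (hd : 1 ≤ d) (hdY : d ≤ Y) :
    ∑ b ∈ (Icc 1 (Nat.sqrt Y)).filter (fun b => b ^ 2 ∣ d), ArithmeticFunction.moebius b =
      if Squarefree d then 1 else 0 := by
  obtain ⟨q, s, hq0, hs0, hqs, hq⟩ := Nat.sq_mul_squarefree_of_pos (show 0 < d by omega)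
  have hset : (Icc 1 (Nat.sqrt Y)).filter (fun b => b ^ 2 ∣ d) = s.divisors := by
    ext b
    rw [mem_filter, mem_Icc, Nat.mem_divisors]
    constructor
    · rintro ⟨⟨h1, _⟩, h2⟩
      refine ⟨?_, by omega⟩
      rw [← Nat.factorization_le_iff_dvd (by omega) (by omega)]
      intro p
      have h3 : (b ^ 2).factorization ≤ d.factorization :=
        (Nat.factorization_le_iff_dvd (by positivity) (by omega)).2 h2
      have h4 := h3 p
      rw [← hqs, Nat.factorization_mul (by positivity) (by omega), Nat.factorization_pow,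
        Nat.factorization_pow] at h4
      simp only [Finsupp.smul_apply, Finsupp.add_apply, smul_eq_mul] at h4
      have h5 := hq.natFactorization_le_one p
      omega
    · rintro ⟨h1, _⟩
      have h2 : b ^ 2 ∣ d := by
        rw [← hqs]
        exact Dvd.dvd.mul_right (pow_dvd_pow_of_dvd h1 2) q
      have h3 : 1 ≤ b := Nat.pos_of_dvd_of_pos h1 hs0
      refine ⟨⟨h3, ?_⟩, h2⟩
      rw [Nat.le_sqrt']
      exact (Nat.le_of_dvd (by omega) h2).trans hdY
  rw [hset]
  have h1 : ∑ b ∈ s.divisors, ArithmeticFunction.moebius b =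
      (1 : ArithmeticFunction ℤ) s := by
    rw [← ArithmeticFunction.moebius_mul_coe_zeta, ArithmeticFunction.coe_mul_zeta_apply]
  rw [h1, ArithmeticFunction.one_apply]
  by_cases hs : s = 1
  · rw [if_pos hs, if_pos]
    rw [← hqs, hs, one_pow, one_mul]
    exact hq
  · rw [if_neg hs, if_neg]
    intro h
    apply hs
    have := h s ⟨q, by rw [← hqs]; ring⟩
    exact Nat.isUnit_iff.1 this

/-- sums over squarefree numbers -/
theorem sqf_split (f : ℕ → ℝ) (Y : ℕ) :
    ∑ d ∈ (Icc 1 Y).filter Squarefree, f d =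
      ∑ b ∈ Icc 1 (Nat.sqrt Y), ((ArithmeticFunction.moebius b : ℤ) : ℝ) *
        ∑ m ∈ Icc 1 (Y / b ^ 2), f (b ^ 2 * m) := by
  have h1 : ∑ d ∈ (Icc 1 Y).filter Squarefree, f d =
      ∑ d ∈ Icc 1 Y, ∑ b ∈ Icc 1 (Nat.sqrt Y), (if b ^ 2 ∣ d then
        ((ArithmeticFunction.moebius b : ℤ) : ℝ) * f d else 0) := by
    rw [sum_filter]
    refine sum_congr rfl fun d hd => ?_
    rw [mem_Icc] at hd
    have h2 := sqf_sum d Y hd.1 hd.2
    rw [← sum_filter, ← sum_mul]
    have h3 : (∑ b ∈ (Icc 1 (Nat.sqrt Y)).filter (fun b => b ^ 2 ∣ d),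
        ((ArithmeticFunction.moebius b : ℤ) : ℝ)) = ((if Squarefree d then 1 else 0 : ℤ) : ℝ) := by
      rw [← h2]
      push_cast
      rfl
    rw [h3]
    split_ifs <;> simp
  rw [h1, sum_comm]
  refine sum_congr rfl fun b hb => ?_
  rw [mem_Icc] at hb
  rw [← sum_filter, mul_sum]
  have hb2 : 0 < b ^ 2 := by
    have : 0 < b := by omega
    positivity
  symm
  refine sum_bij (fun m _ => b ^ 2 * m) ?_ ?_ ?_ ?_
  · intro m hm
    rw [mem_Icc] at hm
    rw [mem_filter, mem_Icc]
    refine ⟨⟨Nat.mul_pos hb2 (by omega), ?_⟩, Dvd.intro m rfl⟩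
    rw [mul_comm]
    exact (Nat.le_div_iff_mul_le hb2).1 hm.2
  · intro m _ m' _ h
    exact Nat.eq_of_mul_eq_mul_left hb2 h
  · intro d hd
    rw [mem_filter, mem_Icc] at hd
    obtain ⟨⟨h1, h2⟩, m, rfl⟩ := hd
    refine ⟨m, ?_, rfl⟩
    rw [mem_Icc]
    refine ⟨?_, ?_⟩
    · rcases Nat.eq_zero_or_pos m with h | h
      · subst h; omega
      · exact h
    · rw [Nat.le_div_iff_mul_le hb2, mul_comm]
      exact h2
  · intro m _
    rfl

/-- sums of periodic functions -/
theorem per_sum (h : ℕ → ℝ) (k : ℕ) (hk : 0 < k) (hper : ∀ n, h (n + k) = h n)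
    (hb : ∀ n, |h n| ≤ 1) (N : ℕ) :
    |∑ t ∈ range N, h t - (N : ℝ) / k * ∑ t ∈ range k, h t| ≤ 2 * k := by
  have hkr : (0 : ℝ) < k := by exact_mod_cast hk
  have hp : ∀ q n, h (k * q + n) = h n := by
    intro q
    induction q with
    | zero => intro n; rw [mul_zero, zero_add]
    | succ q ih =>
      intro n
      have e : k * (q + 1) + n = (k * q + n) + k := by ring
      rw [e, hper, ih]
  have hq : ∀ q, ∑ t ∈ range (k * q), h t = q * ∑ t ∈ range k, h t := by
    intro q
    induction q with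
    | zero => simp
    | succ q ih =>
      rw [mul_add, mul_one, sum_range_add, ih, sum_congr rfl (fun t _ => hp q t)]
      push_cast
      ring
  have hW : |∑ t ∈ range k, h t| ≤ k := by
    refine (abs_sum_le_sum_abs _ _).trans ?_
    have := sum_le_sum (fun t (_ : t ∈ range k) => hb t)
    rw [sum_const, card_range, nsmul_eq_mul, mul_one] at this
    exact this
  have hN := Nat.div_add_mod N k
  set q := N / k
  set r := N % k with hr
  have hrk : r < k := Nat.mod_lt _ hk
  have hrk' : (r : ℝ) ≤ k := by exact_mod_cast hrk.le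
  have hR : |∑ t ∈ range r, h (k * q + t)| ≤ k := by
    refine (abs_sum_le_sum_abs _ _).trans ?_
    have := sum_le_sum (fun t (_ : t ∈ range r) => hb (k * q + t))
    rw [sum_const, card_range, nsmul_eq_mul, mul_one] at this
    linarith
  rw [← hN, sum_range_add, hq]
  have e : (((k * q + r : ℕ) : ℝ)) / k = q + r / k := by
    push_cast
    field_simp
  rw [e]
  have e2 : ((q : ℝ) * ∑ t ∈ range k, h t + ∑ t ∈ range r, h (k * q + t) -
      (q + r / k) * ∑ t ∈ range k, h t) = ∑ t ∈ range r, h (k * q + t) -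
        (r / k) * ∑ t ∈ range k, h t := by ring
  rw [e2]
  have h3 : |(r : ℝ) / k * ∑ t ∈ range k, h t| ≤ k := by
    rw [abs_mul, abs_of_nonneg (by positivity : 0 ≤ (r : ℝ) / k)]
    have h4 : (r : ℝ) / k ≤ 1 := by
      rw [div_le_one hkr]
      exact hrk'
    calc (r : ℝ) / k * |∑ t ∈ range k, h t| ≤ 1 * k := by gcongr
      _ = k := one_mul _
  have := abs_sub (∑ t ∈ range r, h (k * q + t)) ((r : ℝ) / k * ∑ t ∈ range k, h t)
  linarith

/-- affine substitution in a complete sum -/
theorem affine_sum (M a b : ℕ) (hM : 0 < M) (ha : Nat.Coprime a M) (g : ℕ → ℝ)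
    (hg : ∀ n, g (n + M) = g n) :
    ∑ t ∈ range M, g (a * t + b) = ∑ n ∈ range M, g n := by
  have hper : Function.Periodic g M := hg
  have hinj : Set.InjOn (fun t => (a * t + b) % M) (range M : Set ℕ) := by
    intro t ht t' ht' h
    rw [coe_range, Set.mem_Iio] at ht ht'
    have h1 : a * t + b ≡ a * t' + b [MOD M] := h
    have h2 : a * t ≡ a * t' [MOD M] := Nat.ModEq.add_right_cancel' b h1
    have h3 : t ≡ t' [MOD M] := Nat.ModEq.cancel_left_of_coprime (by rwa [Nat.gcd_comm]) h2
    exact Nat.ModEq.eq_of_lt_of_lt h3 ht ht'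
  have himg : (range M).image (fun t => (a * t + b) % M) = range M := by
    apply eq_of_subset_of_card_le
    · intro n hn
      rw [mem_image] at hn
      obtain ⟨t, _, rfl⟩ := hn
      rw [mem_range]
      exact Nat.mod_lt _ hM
    · rw [card_image_of_injOn hinj]
  calc ∑ t ∈ range M, g (a * t + b) = ∑ t ∈ range M, g ((a * t + b) % M) := by
        apply sum_congr rfl
        intro t _
        rw [hper.map_mod_nat]
    _ = ∑ n ∈ (range M).image (fun t => (a * t + b) % M), g n := by
        rw [sum_image hinj]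
    _ = _ := by rw [himg]

/-! ### the Jacobi symbol -/

/-- real Jacobi symbol -/
noncomputable def jr (a : ℤ) (k : ℕ) : ℝ := ((jacobiSym a k : ℤ) : ℝ)

theorem jr_abs (a : ℤ) (k : ℕ) : |jr a k| ≤ 1 := by
  unfold jr
  rcases jacobiSym.trichotomy a k with h | h | h <;> rw [h] <;> norm_num

theorem jr_mul (a b : ℤ) (k : ℕ) : jr (a * b) k = jr a k * jr b k := by
  unfold jr
  rw [jacobiSym.mul_left]
  push_cast
  rfl

theorem jr_per (a b : ℤ) (k : ℕ) : jr (a + k * b) k = jr a k := by
  unfold jr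
  congr 1
  apply jacobiSym.mod_left'
  rw [Int.add_mul_emod_self_left]

theorem jr_sq (a : ℤ) (k : ℕ) [NeZero k] : jr a k ^ 2 = if a.gcd k = 1 then 1 else 0 := by
  unfold jr
  split_ifs with h
  · have := jacobiSym.sq_one h
    exact_mod_cast this
  · have : jacobiSym a k = 0 := jacobiSym.eq_zero_iff_not_coprime.2 h
    rw [this]
    norm_num

/-- a number with Jacobi symbol `-1` -/
theorem exists_neg (k : ℕ) (hk : Odd k) (hsq : ¬ IsSquare k) :
    ∃ u : ℕ, Nat.Coprime u k ∧ jacobiSym (u : ℤ) k = -1 := by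
  have hk0 : k ≠ 0 := by
    rintro rfl
    exact hsq ⟨0, rfl⟩
  obtain ⟨q, s, hq0, hs0, hqs, hq⟩ := Nat.sq_mul_squarefree_of_pos (Nat.pos_of_ne_zero hk0)
  have hq1 : q ≠ 1 := by
    rintro rfl
    exact hsq ⟨s, by rw [← hqs]; ring⟩
  obtain ⟨p, hp, hpq⟩ := Nat.exists_prime_and_dvd hq1
  have hpk : p ∣ k := by
    rw [← hqs]
    exact Dvd.dvd.mul_left hpq _
  have hp2 : p ≠ 2 := by
    rintro rfl
    exact (Nat.not_even_iff_odd.2 hk) (even_iff_two_dvd.2 hpk)
  have hv : Odd (k.factorization p) := by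
    have h1 : q.factorization p = 1 := by
      have h2 := hq.natFactorization_le_one p
      have h3 := (hp.dvd_iff_one_le_factorization (by omega)).1 hpq
      omega
    rw [← hqs, Nat.factorization_mul (by positivity) (by omega), Nat.factorization_pow]
    simp only [Finsupp.smul_apply, Finsupp.add_apply, smul_eq_mul]
    rw [h1]
    exact ⟨s.factorization p, rfl⟩
  have := Fact.mk hp
  obtain ⟨w, hw⟩ := quadraticChar_exists_neg_one (F := ZMod p) (by
    rw [ZMod.ringChar_zmod_n]
    exact hp2)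
  have hw' : jacobiSym (w.val : ℤ) p = -1 := by
    rw [← jacobiSym.legendreSym.to_jacobiSym, legendreSym]
    have : (((w.val : ℤ)) : ZMod p) = w := by
      rw [Int.cast_natCast, ZMod.natCast_zmod_val]
    rw [this]
    exact hw
  set v := k.factorization p with hvdef
  set k' := k / p ^ v with hk'
  have hkk : p ^ v * k' = k := Nat.ordProj_mul_ordCompl_eq_self k p
  have hcop : Nat.Coprime (p ^ v) k' := Nat.Coprime.pow_left v (Nat.coprime_ordCompl hp hk0)
  obtain ⟨u, hu1, hu2⟩ := Nat.chineseRemainder hcop w.val 1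
  have hv0 : v ≠ 0 := by
    rintro h
    rw [h] at hv
    exact absurd hv (by decide)
  have hk'0 : k' ≠ 0 := by
    rintro h
    rw [h, mul_zero] at hkk
    exact hk0 hkk.symm
  have : NeZero (p ^ v) := ⟨by have := hp.pos; positivity⟩
  have : NeZero k' := ⟨hk'0⟩
  have : NeZero k := ⟨hk0⟩
  have h1 : jacobiSym (u : ℤ) p = -1 := by
    rw [← hw']
    apply jacobiSym.mod_left'
    have h2 : u ≡ w.val [MOD p] := Nat.ModEq.of_dvd (dvd_pow_self p hv0) hu1
    exact_mod_cast h2
  have h2 : jacobiSym (u : ℤ) k' = 1 := by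
    have h3 : jacobiSym (u : ℤ) k' = jacobiSym ((1 : ℕ) : ℤ) k' := by
      apply jacobiSym.mod_left'
      exact_mod_cast hu2
    rw [h3, Nat.cast_one, jacobiSym.one_left]
  have h3 : jacobiSym (u : ℤ) k = -1 := by
    rw [← hkk, jacobiSym.mul_right, jacobiSym.pow_right, h1, h2, hv.neg_one_pow, mul_one]
  refine ⟨u, ?_, h3⟩
  by_contra hc
  have h4 : jacobiSym (u : ℤ) k = 0 := by
    rw [jacobiSym.eq_zero_iff_not_coprime]
    intro h5
    exact hc (by simpa [Int.gcd_natCast_natCast] using h5)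
  rw [h4] at h3
  norm_num at h3

/-- complete sums -/
theorem full_sum (e : ℤ) (k : ℕ) (hk : Odd k) (he : ∀ m : ℕ, Odd m → e.gcd m = 1) :
    ∑ n ∈ range k, jr (e * n) k = if IsSquare k then (k.totient : ℝ) else 0 := by
  have hk0 : k ≠ 0 := by rintro rfl; exact absurd hk (by decide)
  have : NeZero k := ⟨hk0⟩
  simp only [jr_mul]
  rw [← mul_sum]
  split_ifs with hs
  · obtain ⟨m, rfl⟩ := hs
    have hm0 : m ≠ 0 := by rintro rfl; exact hk0 rfl
    have hmo : Odd m := (Nat.odd_mul.1 hk).1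
    have : NeZero m := ⟨hm0⟩
    have hjr : ∀ a : ℤ, jr a (m * m) = jr a m ^ 2 := by
      intro a
      unfold jr
      rw [jacobiSym.mul_right]
      push_cast
      ring
    rw [hjr, jr_sq, if_pos (he m hmo), one_mul, Nat.totient_eq_card_coprime, card_filter]
    push_cast
    refine sum_congr rfl fun n _ => ?_
    rw [hjr, jr_sq]
    have e1 : ((n : ℤ).gcd m = 1) ↔ (m * m).Coprime n := by
      rw [Int.gcd_natCast_natCast, Nat.coprime_mul_iff_left, and_self, Nat.coprime_comm]
    by_cases h : (m * m).Coprime n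
    · rw [if_pos (e1.2 h), if_pos h]
    · rw [if_neg (fun h' => h (e1.1 h')), if_neg h]
  · obtain ⟨u, hu, hju⟩ := exists_neg k hk hs
    have h1 := affine_sum k u 0 (Nat.pos_of_ne_zero hk0) hu (fun n => jr (n : ℤ) k) (by
      intro n
      have := jr_per (n : ℤ) 1 k
      simp only [mul_one] at this
      push_cast
      exact this)
    simp only [add_zero] at h1
    have h2 : ∑ t ∈ range k, jr ((u * t : ℕ) : ℤ) k = -∑ t ∈ range k, jr (t : ℤ) k := by
      rw [← sum_neg_distrib]
      refine sum_congr rfl fun t _ => ?_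
      push_cast
      rw [jr_mul]
      have : jr (u : ℤ) k = -1 := by
        unfold jr
        rw [hju]
        norm_num
      rw [this]
      ring
    rw [h2] at h1
    have h3 : ∑ t ∈ range k, jr (t : ℤ) k = 0 := by linarith
    rw [h3, mul_zero]

end Pool.Agent.Y255.TQ
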