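import Pool.Agent.Y255.TQ.Core

/-!
# The constant: sums of the Möbius function over integers coprime to `2 k`
-/

set_option autoImplicit false

namespace Pool.Agent.Y255.TQ

open Finset Filter Topology

/-- the coefficients -/
noncomputable def gc (k b : ℕ) : ℝ :=
  if Nat.Coprime b (2 * k) then ((ArithmeticFunction.moebius b : ℤ) : ℝ) else 0

theorem gc_abs (k b : ℕ) : |gc k b| ≤ 1 := by
  unfold gc
  split_ifs
  · have := ArithmeticFunction.abs_moebius_le_one (n := b)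
    exact_mod_cast this
  · simp

theorem gc_summable (k : ℕ) : Summable fun b : ℕ => gc k b / (b : ℝ) ^ 2 := by
  have h : Summable fun b : ℕ => 1 / (b : ℝ) ^ 2 := Real.summable_one_div_nat_pow.2 (by norm_num)
  refine Summable.of_norm_bounded h fun b => ?_
  rw [Real.norm_eq_abs, abs_div, abs_of_nonneg (by positivity : (0 : ℝ) ≤ (b : ℝ) ^ 2)]
  have := gc_abs k b
  gcongr

/-- the sum of the series -/
theorem gc_tsum (k : ℕ) (hk : Odd k) : ∑' b : ℕ, gc k b / (b : ℝ) ^ 2 =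
    8 / Real.pi ^ 2 * ∏ p ∈ k.primeFactors, (1 - 1 / (p : ℝ) ^ 2)⁻¹ := by
  have hk0 : k ≠ 0 := by rintro rfl; exact absurd hk (by decide)
  have hN : 2 * k ≠ 0 := by omega
  have : NeZero (2 * k) := ⟨hN⟩
  have h1 := DirichletCharacter.LSeries.mul_mu_eq_one (1 : DirichletCharacter ℂ (2 * k))
    (s := 2) (by norm_num)
  rw [← DirichletCharacter.LFunction_eq_LSeries _ (by norm_num : 1 < (2 : ℂ).re)] at h1
  have h2 : DirichletCharacter.LFunction (1 : DirichletCharacter ℂ (2 * k)) 2 =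
      DirichletCharacter.LFunctionTrivChar (2 * k) 2 := rfl
  rw [h2, DirichletCharacter.LFunctionTrivChar_eq_mul_riemannZeta (by norm_num),
    riemannZeta_two] at h1
  have h3 : LSeries ((fun n : ℕ => (1 : DirichletCharacter ℂ (2 * k)) n) *
      (fun n : ℕ => ((ArithmeticFunction.moebius n : ℤ) : ℂ))) 2 =
      ((∑' b : ℕ, gc k b / (b : ℝ) ^ 2 : ℝ) : ℂ) := by
    rw [Complex.ofReal_tsum]
    unfold LSeries
    refine tsum_congr fun b => ?_
    rcases Nat.eq_zero_or_pos b with hb | hb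
    · subst hb
      simp [LSeries.term_zero]
    · rw [LSeries.term_of_ne_zero (by omega)]
      have e1 : ((b : ℂ) ^ (2 : ℂ)) = ((b : ℂ) ^ 2) := by
        rw [show (2 : ℂ) = ((2 : ℕ) : ℂ) by norm_num, Complex.cpow_natCast]
      rw [e1]
      unfold gc
      simp only [Pi.mul_apply]
      by_cases hc : Nat.Coprime b (2 * k)
      · rw [if_pos hc, MulChar.one_apply ((ZMod.isUnit_iff_coprime b (2 * k)).2 hc)]
        push_cast
        ring
      · rw [if_neg hc, MulChar.map_nonunit _ (fun h => hc ((ZMod.isUnit_iff_coprime b (2 * k)).1 h))]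
        push_cast
        ring
  rw [h3] at h1
  have h4 : (∏ p ∈ (2 * k).primeFactors, (1 - (p : ℂ) ^ (-2 : ℂ))) =
      ((3 / 4 * ∏ p ∈ k.primeFactors, (1 - 1 / (p : ℝ) ^ 2) : ℝ) : ℂ) := by
    have h5 : (2 * k).primeFactors = {2} ∪ k.primeFactors := by
      rw [Nat.primeFactors_mul (by norm_num) hk0, Nat.Prime.primeFactors Nat.prime_two]
    have h6 : Disjoint ({2} : Finset ℕ) k.primeFactors := by
      rw [disjoint_singleton_left]
      intro h
      exact (Nat.not_even_iff_odd.2 hk) (even_iff_two_dvd.2 (Nat.dvd_of_mem_primeFactors h))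
    rw [h5, prod_union h6, prod_singleton]
    push_cast
    congr 1
    · rw [Complex.cpow_neg, show (2 : ℂ) = ((2 : ℕ) : ℂ) by norm_num, Complex.cpow_natCast]
      norm_num
    · refine prod_congr rfl fun p _ => ?_
      rw [Complex.cpow_neg, show (2 : ℂ) = ((2 : ℕ) : ℂ) by norm_num, Complex.cpow_natCast]
      norm_num
  rw [h4] at h1
  have h7 : (3 / 4 * ∏ p ∈ k.primeFactors, (1 - 1 / (p : ℝ) ^ 2)) * (Real.pi ^ 2 / 6) *
      ∑' b : ℕ, gc k b / (b : ℝ) ^ 2 = 1 := by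
    exact_mod_cast h1
  have hP : ∏ p ∈ k.primeFactors, (1 - 1 / (p : ℝ) ^ 2) ≠ 0 := by
    rw [prod_ne_zero_iff]
    intro p hp
    have h8 : (2 : ℝ) ≤ p := by exact_mod_cast (Nat.prime_of_mem_primeFactors hp).two_le
    have h9 : 1 / (p : ℝ) ^ 2 < 1 := by
      rw [div_lt_one (by positivity)]
      nlinarith
    linarith
  rw [prod_inv_distrib]
  have hpi := Real.pi_pos
  field_simp at h7 ⊢
  linarith

/-- the tail -/
theorem gc_tail (k r : ℕ) (hr : 1 ≤ r) :
    |∑ b ∈ Icc 1 r, gc k b / (b : ℝ) ^ 2 - ∑' b : ℕ, gc k b / (b : ℝ) ^ 2| ≤ 1 / r := by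
  have hs := (gc_summable k).hasSum.tendsto_sum_nat
  have hs' : Tendsto (fun M => ∑ b ∈ Icc 1 M, gc k b / (b : ℝ) ^ 2) atTop
      (𝓝 (∑' b : ℕ, gc k b / (b : ℝ) ^ 2)) := by
    have h1 := hs.comp (tendsto_add_atTop_nat 1)
    refine h1.congr fun M => ?_
    simp only [Function.comp_apply]
    rw [Finset.sum_range_succ', show Icc 1 M = Ico 1 (M + 1) by rfl, sum_Ico_eq_sum_range]
    simp [add_comm]
  have h2 : Tendsto (fun M => |∑ b ∈ Icc 1 r, gc k b / (b : ℝ) ^ 2 -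
      ∑ b ∈ Icc 1 M, gc k b / (b : ℝ) ^ 2|) atTop
      (𝓝 |∑ b ∈ Icc 1 r, gc k b / (b : ℝ) ^ 2 - ∑' b : ℕ, gc k b / (b : ℝ) ^ 2|) :=
    (tendsto_const_nhds.sub hs').abs
  refine le_of_tendsto h2 ?_
  filter_upwards [eventually_ge_atTop r] with M hM
  have h3 : ∑ b ∈ Icc 1 M, gc k b / (b : ℝ) ^ 2 = ∑ b ∈ Icc 1 r, gc k b / (b : ℝ) ^ 2 +
      ∑ b ∈ Ioc r M, gc k b / (b : ℝ) ^ 2 := by
    rw [← sum_union]
    · congr 1
      ext b
      simp only [mem_union, mem_Icc, mem_Ioc]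
      omega
    · rw [disjoint_left]
      intro b hb hb'
      simp only [mem_Icc, mem_Ioc] at hb hb'
      omega
  rw [h3, abs_sub_comm, add_sub_cancel_left]
  refine (abs_sum_le_sum_abs _ _).trans ?_
  have h4 : ∑ b ∈ Ioc r M, |gc k b / (b : ℝ) ^ 2| ≤ ∑ b ∈ Ioc r M, ((b : ℝ) ^ 2)⁻¹ := by
    refine sum_le_sum fun b _ => ?_
    rw [abs_div, abs_of_nonneg (by positivity : (0 : ℝ) ≤ (b : ℝ) ^ 2), div_eq_mul_inv]
    have := gc_abs k b
    have h5 : (0 : ℝ) ≤ ((b : ℝ) ^ 2)⁻¹ := by positivity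
    nlinarith
  have h5 := sum_Ioc_inv_sq_le_sub (α := ℝ) (by omega : r ≠ 0) hM
  have h6 : (0 : ℝ) ≤ (M : ℝ)⁻¹ := by positivity
  rw [one_div]
  linarith

end Pool.Agent.Y255.TQ
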